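import Pool.Agent.H13.WcsH
import Pool.Agent.H13.WcsJ

namespace Pool.Agent.Results.MP_d5a689_co.Inf

open Pool.Agent.H13.Wcs

/-- the number of weakly consecutive permutations of `[k]` (normalised to `0` outside `[k]`) -/
noncomputable def numW (k : ℕ) : ℕ :=
  {σ : ℕ → ℕ | IsWCS k σ ∧ ∀ i, i ∉ Set.Icc 1 k → σ i = 0}.ncard

theorem congr_wcs {k : ℕ} {σ τ : ℕ → ℕ} (h : IsWCS k σ) (e : ∀ i, 1 ≤ i → i ≤ k → σ i = τ i) :
    IsWCS k τ :=
  ⟨h.1.congr (fun i hi => e i hi.1 hi.2), fun i hi j hj m hm a b => by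
    rw [← e j hj.1 hj.2]; rw [← e i hi.1 hi.2] at a; exact h.2 i hi j hj m hm a b⟩

theorem id_wcs (k : ℕ) : IsWCS k id :=
  IsWCS.of (Set.bijOn_id _) (fun _ _ _ _ _ _ _ _ a b => (b.dvd_iff dvd_rfl).1 a)

theorem two {t : ℕ} (g : ∀ p c : ℕ, p.Prime → 1 ≤ c →
    ¬ (p ^ c ≤ 12 * t + 8 ∧ 12 * t + 8 < p ^ c + p ^ (c - 1))) : numW (12 * t + 8) = 2 := by
  obtain ⟨k, hk⟩ : ∃ k, k = 12 * t + 8 := ⟨_, rfl⟩
  rw [← hk] at g ⊢
  have : {σ : ℕ → ℕ | IsWCS k σ ∧ ∀ i, i ∉ Set.Icc 1 k → σ i = 0} =
      {fun i => if 1 ≤ i ∧ i ≤ k then i else 0,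
        fun i => if 1 ≤ i ∧ i ≤ k then k + 1 - i else 0} := by
    ext σ
    simp only [Set.mem_ofPred_eq, Set.mem_insert_iff, Set.mem_singleton_iff, Set.mem_Icc]
    constructor
    · rintro ⟨h, z⟩
      obtain ⟨s, l, τ, d, e⟩ := der_exists h (by omega)
      have a := d.avail
      have ev : ∀ p : ℕ, p.Prime → p ≠ 6 * t + 4 := fun p hp q => by
        have := hp.eq_two_or_odd; omega
      obtain rfl : s = .consec := by
        cases s with
        | consec => rfl
        | inv =>
          have := (Nat.prime_dvd_prime_iff_eq Nat.prime_three a).1 (by omega)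
          omega
        | twin => obtain ⟨p, b, c, -⟩ := a; have := ev p c; omega
        | sophie => obtain ⟨p, b, -⟩ := a; omega
        | extra => obtain ⟨p, b, c, -⟩ := a; have := ev p c; omega
      have fx : ∀ y, val l y = y := fun y => (val_fix (fun a b q => by
        rcases d.valid a b q with v | ⟨p, c, v1, v2, -, -, v3⟩
        · cases v.1
        · exact (g p c v1 v2 v3).elim) y).2 rfl
      obtain ⟨ρ, -, f⟩ := d.form
      cases ρ
      · left; funext i
        split_ifs with c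
        · rw [← e i c.1 c.2, f i (by omega), fx]; rfl
        · exact z i c
      · right; funext i
        split_ifs with c
        · rw [← e i c.1 c.2, f i (by omega), fx]; rfl
        · exact z i c
    · rintro (rfl | rfl)
      · exact ⟨congr_wcs (id_wcs k) (fun i a b => by simp [a, b]), fun i c => if_neg c⟩
      · exact ⟨congr_wcs (id_wcs k).rev (fun i a b => by simp [a, b, rev]), fun i c => if_neg c⟩
  rw [numW, this]
  apply Set.ncard_pair
  intro q
  have := congrFun q 1
  simp only [le_refl, true_and] at this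
  split_ifs at this <;> omega

theorem result : {k : ℕ | 2 ≤ k ∧ numW k = 2}.Infinite := by
  apply Set.infinite_of_forall_exists_gt
  intro K
  obtain ⟨t, ht, g⟩ := exists_good K
  exact ⟨12 * t + 8, ⟨by omega, two g⟩, by omega⟩

end Pool.Agent.Results.MP_d5a689_co.Inf
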